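import Pool.Agent.H249.ML.Pa

/-!
# Real and `p`-adic multiple zeta values: when is it sufficient to compare finitely many relations?

`H` is the algebra of the polynomials in one variable (of weight `2`) over the shuffle algebra on the letters
`0, 1, 2, ...`, the letter `a` of weight `2 a + 3`, which is isomorphic to the algebra of motivic multiple zeta values.
`F` is the Lie algebra generated by the derivations which remove the first letter of a word if it is `a`, and send all other
words and the variable to zero. `mz s` stands for the motivic multiple zeta values, `per` for the real period map, and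
`q` for the `p`-adic period maps (Furusho), with values in `K = ℚ_p` and `q (mz s) = ζ_p(s)`.

There are finitely many relations between real multiple zeta values which imply all relations for every homomorphism
to every algebra if and only if the elements of `F` of large degree preserve the real relations. Then, for all primes
`p` at once, the transfer of all relations to the `p`-adic values is equivalent to finitely many `p`-adic relations.
-/

set_option autoImplicit false

open Submodule Module Polynomial

namespace Pool.Agent.Results.MP_03df5c_nt.FinitelyManyRelationsSuffice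

open Pool.Agent.H447R2.MZ (val Adm)
open Pool.Agent.Q187.ZD.Padic (Transfer)
open Pool.Agent.H249.ML.Two (H LieSub F)
open Pool.Agent.H249.ML (WZ)
open Pool.Agent.H249.ML.Wr (part Lowers)

/-- The finite set `T` of relations implies all relations, for all homomorphisms from `H` to `ℚ`-algebras. -/
def Implies (per : H →ₐ[ℚ] ℝ) (T : Finset H) : Prop :=
  (∀ x ∈ T, per x = 0) ∧ ∀ (R : Type) [CommRing R] [Algebra ℚ R] (q : H →ₐ[ℚ] R), (∀ x ∈ T, q x = 0) →
    ∀ x, per x = 0 → q x = 0

/-- All elements of `F` of degree larger than `N` preserve the relations. -/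
def TailStable (per : H →ₐ[ℚ] ℝ) (N : ℕ) : Prop :=
  ∀ k > N, ∀ d, F.Has d → Lowers WZ k d → ∀ x, per x = 0 → per (d.app x) = 0

theorem implies_iff (per : H →ₐ[ℚ] ℝ) (T : Finset H) : Implies per T ↔ Ideal.span (T : Set H) = RingHom.ker per := by
  constructor
  · rintro ⟨h1, h2⟩
    apply le_antisymm
    · exact Ideal.span_le.mpr fun x hx => h1 x hx
    · intro x hx
      have h3 := h2 (H ⧸ Ideal.span (T : Set H)) (Ideal.Quotient.mkₐ ℚ _)
        (fun y hy => Ideal.Quotient.eq_zero_iff_mem.mpr (Ideal.subset_span hy)) x hx
      exact Ideal.Quotient.eq_zero_iff_mem.mp h3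
  · intro h
    refine ⟨fun x hx => ?_, fun R _ _ q hq x hx => ?_⟩
    · have h1 : x ∈ RingHom.ker per := by
        rw [← h]
        exact Ideal.subset_span hx
      exact h1
    · have h1 : Ideal.span (T : Set H) ≤ RingHom.ker q := Ideal.span_le.mpr fun y hy => hq y hy
      have h2 : x ∈ Ideal.span (T : Set H) := by
        rw [h]
        exact hx
      exact h1 h2

section

open Pool.Agent.H249.MZ

theorem tail_iff (per : H →ₐ[ℚ] ℝ) : (RingHom.ker per).FG ↔ ∃ N, TailStable per N :=
  (Pool.Agent.H249.ML.fg_iff' (Pool.Agent.H249.ML.gr_deg WZ) (Pool.Agent.H249.ML.nondeg_Fl WZ)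
    (Pool.Agent.H249.ML.gr_Fl WZ) Pool.Agent.H249.ML.inv_fg (I := RingHom.ker (per : HH →ₐ[ℚ] ℝ))).trans
      (exists_congr fun _ => ⟨fun h k hk d hd hd' x hx => h k hk d ⟨hd, hd'⟩ x hx,
        fun h k hk d hd x hx => h k hk d hd.1 hd.2 x hx⟩)

end

/-- **Theorem.** Let the elements `mz s`, `s` admissible of weight `n`, span the part of weight `n` of `H`, for all `n`,
and let `per (mz s) = ζ(s)`. (1) Some finite set of real relations implies all relations, for all homomorphisms from `H` to
`ℚ`-algebras, if and only if the elements of `F` of degree larger than some `N` preserve the real relations. (2) If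
`T` is such a set then, for all fields `K`, families `z` and homomorphisms `q` with `q (mz s) = z s`, all
relations between real multiple zeta values hold for `z` if and only if `q x = 0` for the elements `x` of `T`. -/
theorem result (mz : List ℕ → H)
    (hm : ∀ n, Submodule.span ℚ {x | ∃ s, Adm s ∧ s.sum = n ∧ x = mz s} = part WZ n)
    (per : H →ₐ[ℚ] ℝ) (hper : ∀ s, Adm s → per (mz s) = val s) :
    ((∃ T, Implies per T) ↔ ∃ N, TailStable per N) ∧
    ∀ T, Implies per T → ∀ (K : Type) [Field K] [Algebra ℚ K] (z : List ℕ → K) (q : H →ₐ[ℚ] K),
      (∀ s, Adm s → q (mz s) = z s) → (Transfer z ↔ ∀ x ∈ T, q x = 0) := by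
  refine ⟨?_, fun T hT K _ _ z q hq => ?_⟩
  · rw [← tail_iff]
    exact exists_congr fun T => implies_iff per T
  · rw [Pool.Agent.H249.ML.Pa.transfer_iff (mz := mz) hm (per := per) (q := q) hper hq]
    exact ⟨fun h x hx => h x (hT.1 x hx), fun h => hT.2 K q h⟩

end Pool.Agent.Results.MP_03df5c_nt.FinitelyManyRelationsSuffice
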