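import Pool.Agent.Q187.ZD.Padic

/-!
# Real and `p`-adic multiple zeta values: the dimensions of the joint spaces

`z` is a family of elements of a field `K` of characteristic `0`, for example the `p`-adic multiple
zeta values, which satisfies the stuffle product. `Sp val N` and `Sp z N` are the `ℚ`-spans of the
real values and of the `z s` for the admissible indices of weight at most `N`, and
`Sp (pair z) N ⊆ ℝ × K` is the `ℚ`-span of the pairs `(ζ(s), z s)`. If one polynomial relation
between real multiple zeta values fails for `z`, the difference `dim Sp (pair z) N - dim Sp val N`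
is at least `dim Sp z (N - k)` for all `N ≥ k`. So all relations carry over to `z` if and only if
this difference is `o(dim Sp z N)`.
-/

set_option autoImplicit false

open Module

namespace Pool.Agent.Results.MP_03df5c_nt.JointDimensions

open Pool.Agent.H447R2.MZ
open Pool.Agent.Q187.ZD.Padic

theorem result {K : Type} [Field K] [Algebra ℚ K] (z : List ℕ → K) (hz : HasStuffle z) :
    (¬ Transfer z → ∃ k, ∀ N, k ≤ N →
      finrank ℚ (Sp val N) + finrank ℚ (Sp z (N - k)) ≤ finrank ℚ (Sp (pair z) N)) ∧
    (Transfer z ↔ ∀ k, ∃ N, k ≤ N ∧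
      finrank ℚ (Sp (pair z) N) < finrank ℚ (Sp val N) + finrank ℚ (Sp z (N - k))) ∧
    (Transfer z ↔ Filter.Tendsto (fun N => ((finrank ℚ (Sp (pair z) N) : ℝ) -
      finrank ℚ (Sp val N)) / finrank ℚ (Sp z N)) Filter.atTop (nhds 0)) := by
  refine ⟨fun h => ?_, counts z hz, limit z hz⟩
  rw [transfer_iff z hz] at h
  push Not at h
  obtain ⟨k, w, hw, h0, hw0⟩ := h
  exact ⟨k, fun N hN => drop z hz hN hw h0 hw0⟩

end Pool.Agent.Results.MP_03df5c_nt.JointDimensions
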