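import Pool.Agent.H249.ML.Pa

/-!
# Real and `p`-adic multiple zeta values: the number of the relations which fail

`H` is the algebra of the polynomials in one variable (of weight `2`) over the shuffle algebra on the letters
`0, 1, 2, ...`, the letter `a` of weight `2 a + 3`, which is isomorphic to the algebra of motivic multiple zeta values.
`F` is the Lie algebra generated by the derivations which remove the first letter of a word if it is `a`, and send all other
words and the variable to zero. `mz s` stands for the motivic multiple zeta values, `per` for the real period map, and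
`q` for the `p`-adic period map (Furusho), with values in `K = ℚ_p` and `q (mz s) = ζ_p(s)`.

`fail n` is the dimension of the space of the values `∑ c_i z(s_i)` of the real relations `∑ c_i ζ(s_i) = 0` of weight at
most `n`. If a graded Lie subalgebra `S` of `F` preserves the real relations and the relations between the values of `z`,
these numbers are determined by the relations which are killed by `S`.
-/

set_option autoImplicit false

open Submodule Module Polynomial

namespace Pool.Agent.Results.MP_03df5c_nt.NumberOfFailingRelations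

open Pool.Agent.H447R2.MZ (val Adm)
open Pool.Agent.Q187.ZD.Padic (Transfer)
open Pool.Agent.H249.ML.Two (H LieSub)
open Pool.Agent.H249.ML (WZ)
open Pool.Agent.H249.ML.Wr (part upTo IsGradedSub Stable dimLie)

variable {K : Type} [Field K] [Algebra ℚ K]

/-- The dimension of the space of the numbers `∑ c_i z(s_i)`, for all rational linear relations `∑ c_i ζ(s_i) = 0`
between real multiple zeta values of weight at most `n`. -/
noncomputable def fail (z : List ℕ → K) (n : ℕ) : ℕ :=
  Set.finrank ℚ {v : K | ∃ (m : ℕ) (c : Fin m → ℚ) (s : Fin m → List ℕ), (∀ i, Adm (s i) ∧ (s i).sum ≤ n) ∧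
    ∑ i, c i • val (s i) = 0 ∧ ∑ i, c i • z (s i) = v}

/-- The dimension of the space of the values under `q` of the elements of weight at most `n` which are killed by `S`
and mapped to zero by `per`. -/
noncomputable def failInv (per : H →ₐ[ℚ] ℝ) (q : H →ₐ[ℚ] K) (S : LieSub) (n : ℕ) : ℕ :=
  Set.finrank ℚ {v : K | ∃ x ∈ upTo WZ n, (∀ d, S.Has d → d.app x = 0) ∧ per x = 0 ∧ q x = v}

section

open Pool.Agent.H249.MZ

theorem fail_eq {mz : List ℕ → HH} (hm : ∀ n, Submodule.span ℚ {x | ∃ s, Adm s ∧ s.sum = n ∧ x = mz s} =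
    Pool.Agent.H249.ML.deg WZ n) {per : HH →ₐ[ℚ] ℝ} (hper : ∀ s, Adm s → per (mz s) = val s) {z : List ℕ → K}
    {q : HH →ₐ[ℚ] K} (hq : ∀ s, Adm s → q (mz s) = z s) (n : ℕ) :
    fail z n = finrank ℚ ((Pool.Agent.H249.ML.Fi (Pool.Agent.H249.ML.deg WZ) n ⊓ LinearMap.ker per.toLinearMap).map
      q.toLinearMap) := by
  unfold fail Set.finrank
  congr 2
  all_goals
    apply le_antisymm
    · refine Submodule.span_le.mpr ?_
      rintro v ⟨m, c, s, h1, h2, rfl⟩
      refine ⟨∑ i, c i • mz (s i), ⟨?_, ?_⟩, ?_⟩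
      · refine Submodule.sum_mem _ fun i _ => Submodule.smul_mem _ _ ?_
        rw [← Pool.Agent.H249.ML.Pa.span_upTo hm n]
        exact Submodule.subset_span ⟨s i, (h1 i).1, (h1 i).2, rfl⟩
      · change per (∑ i, c i • mz (s i)) = 0
        rw [← h2, map_sum]
        exact Finset.sum_congr rfl fun i _ => by rw [map_smul, hper _ (h1 i).1]
      · change q (∑ i, c i • mz (s i)) = _
        rw [map_sum]
        exact Finset.sum_congr rfl fun i _ => by rw [map_smul, hq _ (h1 i).1]
    · rintro v ⟨x, ⟨h1, h2⟩, rfl⟩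
      rw [SetLike.mem_coe, ← Pool.Agent.H249.ML.Pa.span_upTo hm n] at h1
      obtain ⟨m, c, g, rfl⟩ := Submodule.mem_span_set'.mp h1
      choose s hs hsn hg using fun i => (g i).2
      have h2' : per (∑ i, c i • (g i : HH)) = 0 := h2
      refine Submodule.subset_span ⟨m, c, s, fun i => ⟨hs i, hsn i⟩, ?_, ?_⟩
      · rw [← h2', map_sum]
        exact Finset.sum_congr rfl fun i _ => by rw [map_smul, hg i, hper _ (hs i)]
      · change _ = q (∑ i, c i • (g i : HH))
        rw [map_sum]
        exact Finset.sum_congr rfl fun i _ => by rw [map_smul, hg i, hq _ (hs i)]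

theorem failInv_eq (per : HH →ₐ[ℚ] ℝ) (q : HH →ₐ[ℚ] K) (S : LieSubalgebra ℚ (Derivation ℚ HH HH)) (n : ℕ) :
    failInv per q S n = finrank ℚ ((Pool.Agent.H249.MZ.Inv S.toSubmodule ⊓
      Pool.Agent.H249.ML.Fi (Pool.Agent.H249.ML.deg WZ) n ⊓ LinearMap.ker per.toLinearMap).map q.toLinearMap) := by
  unfold failInv Set.finrank
  congr 2
  all_goals
    apply le_antisymm
    · refine Submodule.span_le.mpr ?_
      rintro p ⟨x, hx, h1, h2, rfl⟩
      exact ⟨x, ⟨⟨h1, hx⟩, h2⟩, rfl⟩
    · rintro p ⟨x, ⟨⟨h1, hx⟩, h2⟩, rfl⟩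
      exact Submodule.subset_span ⟨x, hx, h1, h2, rfl⟩

end

/-- **Theorem.** Let the elements `mz s`, `s` admissible of weight `n`, span the part of weight `n` of `H`, for all `n`,
let `per (mz s) = ζ(s)` and `q (mz s) = z s`. Let `S` be a graded Lie subalgebra of `F` which preserves the kernels of `per` and
`q`. Then `fail z n` is the coefficient of `X^n` in `(∑ failInv per q S w * X^w) / ∏_k (1 - X^k)^(dim S_k)`. -/
theorem result (mz : List ℕ → H)
    (hm : ∀ n, Submodule.span ℚ {x | ∃ s, Adm s ∧ s.sum = n ∧ x = mz s} = part WZ n)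
    (per : H →ₐ[ℚ] ℝ) (hper : ∀ s, Adm s → per (mz s) = val s) (z : List ℕ → K) (q : H →ₐ[ℚ] K)
    (hq : ∀ s, Adm s → q (mz s) = z s) (S : LieSub) (hS : IsGradedSub WZ S) (h1 : Stable per S) (h2 : Stable q S) (n : ℕ) :
    (fail z n : ℚ) = PowerSeries.coeff n (PowerSeries.mk (fun w => (failInv per q S w : ℚ)) *
      (∏ k ∈ Finset.Icc 1 n, (1 - PowerSeries.X ^ k) ^ dimLie WZ S k)⁻¹) := by
  have e1 := fail_eq (mz := mz) hm (per := per) hper (q := q) hq n
  have e2 := Pool.Agent.H249.ML.Pa.fail_formula (W := WZ) (per := per) (q := q)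
    ((Pool.Agent.H249.ML.Wr.graded_iff S).mp hS) h1 h2 n
  rw [e1, e2]
  have e3 : ∀ w, failInv per q S w = _ := fun w => failInv_eq per q S w
  simp only [e3, Pool.Agent.H249.ML.Wr.dimLie_eq]

end Pool.Agent.Results.MP_03df5c_nt.NumberOfFailingRelations
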