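import Pool.Agent.H249.ML.Pa

/-!
# Real and `p`-adic multiple zeta values: it suffices to compare the relations killed by the symmetries

`H` is the algebra of the polynomials in one variable (of weight `2`) over the shuffle algebra on the letters
`0, 1, 2, ...`, the letter `a` of weight `2 a + 3`, which is isomorphic to the algebra of motivic multiple zeta values.
`F` is the Lie algebra generated by the derivations which remove the first letter of a word if it is `a`, and send all other
words and the variable to zero. `mz s` stands for the motivic multiple zeta values, `per` for the real period map, and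
`q` for the `p`-adic period map (Furusho), with values in `K = ℚ_p` and `q (mz s) = ζ_p(s)`.

If a graded Lie subalgebra `S` of `F` preserves the relations between the real values then all relations hold for `z`
(for `ζ_p`) if and only if the relations killed by `S` do. And no other graded Lie subalgebra has this property for
all homomorphisms `q` to all algebras.
-/

set_option autoImplicit false

open Submodule Module Polynomial

namespace Pool.Agent.Results.MP_03df5c_nt.RelationsKilledBySymmetries

open Pool.Agent.H447R2.MZ (val Adm)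
open Pool.Agent.Q187.ZD.Padic (Transfer)
open Pool.Agent.H249.ML.Two (H LieSub)
open Pool.Agent.H249.ML (WZ)
open Pool.Agent.H249.ML.Wr (part IsGradedSub Stable Generated)

/-- The relation `x` is killed by `S`. -/
def Killed (S : LieSub) (x : H) : Prop := ∀ d, S.Has d → d.app x = 0

section

open Pool.Agent.H249.MZ

theorem key {S : LieSub} (hS : IsGradedSub WZ S) (per : H →ₐ[ℚ] ℝ) : Stable per S ↔ Generated per S := by
  have hS' := (Pool.Agent.H249.ML.Wr.graded_iff S).mp hS
  have hgr : IsGr (Pool.Agent.H249.ML.deg WZ) (S : LieSubalgebra ℚ (Derivation ℚ HH HH)) :=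
    Pool.Agent.H249.ML.isGr_iff.mpr hS'.2
  have hnd : NonDeg (Pool.Agent.H249.ML.deg WZ) (S : LieSubalgebra ℚ (Derivation ℚ HH HH)) :=
    fun k hk d hd => Pool.Agent.H249.ML.nondeg_Fl WZ k hk d ⟨hS'.1 hd.1, hd.2⟩
  exact Pool.Agent.H249.ML.stable_iff_genI (Pool.Agent.H249.ML.gr_deg WZ) hnd hgr (I := RingHom.ker (per : HH →ₐ[ℚ] ℝ))

theorem of_gen {S : LieSub} {per : H →ₐ[ℚ] ℝ} (hg : Generated per S) {R : Type} [CommRing R] [Algebra ℚ R]
    (q : H →ₐ[ℚ] R) (h : ∀ x, Killed S x → per x = 0 → q x = 0) : ∀ x, per x = 0 → q x = 0 := by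
  intro x hx
  have h1 : Ideal.span {y : H | per y = 0 ∧ ∀ d, S.Has d → d.app y = 0} ≤ RingHom.ker q :=
    Ideal.span_le.mpr fun y hy => h y hy.2 hy.1
  exact h1 (hg x hx)

theorem gen_of {S : LieSub} {per : H →ₐ[ℚ] ℝ}
    (h : ∀ (R : Type) [CommRing R] [Algebra ℚ R] (q : H →ₐ[ℚ] R), (∀ x, Killed S x → per x = 0 → q x = 0) →
      ∀ x, per x = 0 → q x = 0) : Generated per S := by
  intro x hx
  have h1 := h (H ⧸ (Ideal.span {y : H | per y = 0 ∧ ∀ d, S.Has d → d.app y = 0})) (Ideal.Quotient.mkₐ ℚ _)
    (fun y hy1 hy2 => Ideal.Quotient.eq_zero_iff_mem.mpr (Ideal.subset_span ⟨hy2, hy1⟩)) x hx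
  exact Ideal.Quotient.eq_zero_iff_mem.mp h1

end

/-- **Theorem.** Let the elements `mz s`, `s` admissible of weight `n`, span the part of weight `n` of `H`, for all `n`,
and let `per (mz s) = ζ(s)`. Let `S` be a graded Lie subalgebra of `F`. (1) If `S` preserves the real relations then, for all
families `z` in a field `K` with a homomorphism `q` such that `q (mz s) = z s`, all polynomial relations between real
multiple zeta values hold for `z` if and only if `q` maps the relations killed by `S` to zero. (2) `S`
preserves the real relations if and only if, for all `ℚ`-algebras `R` and homomorphisms `q` from `H` to `R`, the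
relations killed by `S` imply all relations. -/
theorem result (mz : List ℕ → H)
    (hm : ∀ n, Submodule.span ℚ {x | ∃ s, Adm s ∧ s.sum = n ∧ x = mz s} = part WZ n)
    (per : H →ₐ[ℚ] ℝ) (hper : ∀ s, Adm s → per (mz s) = val s) (S : LieSub) (hS : IsGradedSub WZ S) :
    (Stable per S → ∀ (K : Type) [Field K] [Algebra ℚ K] (z : List ℕ → K) (q : H →ₐ[ℚ] K),
      (∀ s, Adm s → q (mz s) = z s) → (Transfer z ↔ ∀ x, Killed S x → per x = 0 → q x = 0)) ∧
    (Stable per S ↔ ∀ (R : Type) [CommRing R] [Algebra ℚ R] (q : H →ₐ[ℚ] R),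
      (∀ x, Killed S x → per x = 0 → q x = 0) → ∀ x, per x = 0 → q x = 0) := by
  refine ⟨fun hst K _ _ z q hq => ?_, ?_⟩
  · rw [Pool.Agent.H249.ML.Pa.transfer_iff (mz := mz) hm (per := per) (q := q) hper hq]
    exact ⟨fun h x _ hx => h x hx, fun h => of_gen ((key hS per).mp hst) q h⟩
  · rw [key hS per]
    exact ⟨fun hg R _ _ q h => of_gen hg q h, gen_of⟩

end Pool.Agent.Results.MP_03df5c_nt.RelationsKilledBySymmetries
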